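import Pool.Agent.Q216.PFr.Ultra

set_option autoImplicit false

/-! # First-order correspondence does not transfer from Kripke frames to full possibility frames

For every nonempty index set `I` there is a modal formula which has a first-order correspondent over
Kripke frames, but not over full possibility frames. -/

namespace Pool.Agent.Results.MP_156542_lc.NoTransfer

open Pool.Agent.Q216.PFr

theorem result : ∀ (I : Type) [Nonempty I], ∃ φ : Fm I, KripkeFO φ ∧ ¬ PossFO φ := by
  intro I hI
  obtain ⟨i⟩ := hI
  exact ⟨Fm.phi i, kripkeFO_phi i, not_possFO_phi i⟩

end Pool.Agent.Results.MP_156542_lc.NoTransfer
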